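import Pool.Agent.H34.PS.Targets

/-!
# psq_modules, EN: the second moment of the number of representations (helper5)
-/

set_option autoImplicit false

open Finset

namespace Pool.Agent.H5.PSQ

open Pool.Agent.H34.PS

theorem pf_EN (hME : T_ME) : T_EN := by
  classical
  intro Y hY
  set E := ((Icc 1 Y ×ˢ Icc 1 Y ×ˢ Icc 1 Y ×ˢ Icc 1 Y).filter
    fun a : ℕ × ℕ × ℕ × ℕ => a.1 ^ 2 + a.2.1 ^ 2 = a.2.2.1 ^ 2 + a.2.2.2 ^ 2) with hE
  set M := ((Icc 1 (2 * Y) ×ˢ Icc 1 (2 * Y) ×ˢ Icc 1 (2 * Y) ×ˢ Icc 1 (2 * Y)).filter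
    fun a : ℕ × ℕ × ℕ × ℕ => a.1 * a.2.1 = a.2.2.1 * a.2.2.2) with hM
  have hMc : (M.card : ℝ) ≤ 2 * ((2 * Y : ℕ) : ℝ) ^ 2 * (1 + Real.log ((2 * Y : ℕ) : ℝ)) :=
    hME (2 * Y) (by omega)
  have hsub : E ⊆ (((Icc 1 Y ×ˢ Icc 1 Y).image fun x => (x.1, x.2, x.1, x.2)) ∪
      (M.image fun x => ((x.1 + x.2.1) / 2, (x.2.2.2 - x.2.2.1) / 2, (x.2.1 - x.1) / 2,
        (x.2.2.1 + x.2.2.2) / 2))) ∪
      (M.image fun x => ((x.2.1 - x.1) / 2, (x.2.2.1 + x.2.2.2) / 2, (x.1 + x.2.1) / 2,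
        (x.2.2.2 - x.2.2.1) / 2)) := by
    rintro ⟨y, w, z, v⟩ hx
    simp only [hE, mem_filter, mem_product, mem_Icc] at hx
    obtain ⟨⟨⟨ha1, ha2⟩, ⟨hb1, hb2⟩, ⟨hc1, hc2⟩, ⟨hd1, hd2⟩⟩, habcd⟩ := hx
    rw [mem_union, mem_union, mem_image, mem_image, mem_image]
    rcases lt_trichotomy y z with h | h | h
    · right
      have hwv : v < w := by
        by_contra hcon
        have h1 : w ^ 2 ≤ v ^ 2 := Nat.pow_le_pow_left (by omega) 2
        have h2 : y ^ 2 < z ^ 2 := Nat.pow_lt_pow_left h (by norm_num)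
        omega
      obtain ⟨s, rfl⟩ : ∃ s, z = y + s := ⟨z - y, by omega⟩
      obtain ⟨r, rfl⟩ : ∃ r, w = v + r := ⟨w - v, by omega⟩
      refine ⟨(s, y + y + s, r, v + v + r), ?_, ?_⟩
      · simp only [hM, mem_filter, mem_product, mem_Icc]
        refine ⟨⟨⟨by omega, by omega⟩, ⟨by omega, by omega⟩, ⟨by omega, by omega⟩, ⟨by omega, by omega⟩⟩, ?_⟩
        nlinarith [habcd]
      · simp only [Prod.mk.injEq]
        refine ⟨by omega, by omega, by omega, by omega⟩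
    · left
      left
      have hwv : w = v := by
        rw [h] at habcd
        have : w ^ 2 = v ^ 2 := by omega
        exact Nat.pow_left_injective (by norm_num) this
      exact ⟨(y, w), by simp only [mem_product, mem_Icc]; exact ⟨⟨ha1, ha2⟩, hb1, hb2⟩, by rw [h, hwv]⟩
    · left
      right
      have hwv : w < v := by
        by_contra hcon
        have h1 : v ^ 2 ≤ w ^ 2 := Nat.pow_le_pow_left (by omega) 2
        have h2 : z ^ 2 < y ^ 2 := Nat.pow_lt_pow_left h (by norm_num)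
        omega
      obtain ⟨s, rfl⟩ : ∃ s, y = z + s := ⟨y - z, by omega⟩
      obtain ⟨r, rfl⟩ : ∃ r, v = w + r := ⟨v - w, by omega⟩
      refine ⟨(s, z + z + s, r, w + w + r), ?_, ?_⟩
      · simp only [hM, mem_filter, mem_product, mem_Icc]
        refine ⟨⟨⟨by omega, by omega⟩, ⟨by omega, by omega⟩, ⟨by omega, by omega⟩, ⟨by omega, by omega⟩⟩, ?_⟩
        nlinarith [habcd]
      · simp only [Prod.mk.injEq]
        refine ⟨by omega, by omega, by omega, by omega⟩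
  have hc : E.card ≤ (Y * Y + M.card) + M.card := by
    refine (Finset.card_le_card hsub).trans ((Finset.card_union_le _ _).trans ?_)
    refine add_le_add ((Finset.card_union_le _ _).trans (add_le_add ?_ Finset.card_image_le))
      Finset.card_image_le
    refine Finset.card_image_le.trans ?_
    rw [Finset.card_product]
    simp
  have hc' : (E.card : ℝ) ≤ (Y * Y + M.card) + M.card := by exact_mod_cast hc
  push_cast at hMc
  have hY1 : (1 : ℝ) ≤ Y := by exact_mod_cast hY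
  have hlog : 0 ≤ Real.log (2 * (Y : ℝ)) := Real.log_nonneg (by linarith)
  have h2 : (0 : ℝ) ≤ (Y : ℝ) ^ 2 * Real.log (2 * (Y : ℝ)) := by positivity
  calc (E.card : ℝ) ≤ (Y * Y + M.card) + M.card := hc'
    _ ≤ (Y * Y + 2 * (2 * (Y : ℝ)) ^ 2 * (1 + Real.log (2 * (Y : ℝ)))) +
        2 * (2 * (Y : ℝ)) ^ 2 * (1 + Real.log (2 * (Y : ℝ))) := by linarith
    _ = 17 * (Y : ℝ) ^ 2 * (1 + Real.log (2 * (Y : ℝ))) - (Y : ℝ) ^ 2 * Real.log (2 * (Y : ℝ)) := by
        ring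
    _ ≤ 17 * (Y : ℝ) ^ 2 * (1 + Real.log (2 * Y)) := by linarith

end Pool.Agent.H5.PSQ
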