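import Pool.Agent.H34.PS.Targets

/-!
# psq_modules, ME: the multiplicative energy of an interval (helper5)
-/

set_option autoImplicit false

open Finset

namespace Pool.Agent.H5.PSQ

open Pool.Agent.H34.PS

/-- the parameters of one half -/
def Sg (N : ℕ) : Finset (Σ _ : ℕ, ℕ × ℕ × ℕ) :=
  (Icc 1 N).sigma fun t => Icc 1 t ×ˢ Icc 1 (N / t) ×ˢ Icc 1 (N / t)

theorem card_Sg (N : ℕ) (hN : 1 ≤ N) :
    ((Sg N).card : ℝ) ≤ (N : ℝ) ^ 2 * (1 + Real.log N) := by
  have h1 : ((Sg N).card : ℝ) = ∑ t ∈ Icc 1 N, ((t : ℝ) * (((N / t : ℕ) : ℝ) * ((N / t : ℕ) : ℝ))) := by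
    rw [Sg, Finset.card_sigma]
    push_cast
    apply Finset.sum_congr rfl
    intro t _
    rw [Finset.card_product, Finset.card_product]
    simp
  rw [h1]
  have h2 : ∀ t ∈ Icc 1 N, ((t : ℝ) * (((N / t : ℕ) : ℝ) * ((N / t : ℕ) : ℝ))) ≤
      (N : ℝ) ^ 2 * ((t : ℝ)⁻¹) := by
    intro t ht
    rw [mem_Icc] at ht
    have ht0 : (0 : ℝ) < t := by exact_mod_cast ht.1
    have h3 : ((N / t : ℕ) : ℝ) ≤ (N : ℝ) / t := Nat.cast_div_le
    have h4 : (0 : ℝ) ≤ ((N / t : ℕ) : ℝ) := Nat.cast_nonneg _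
    calc ((t : ℝ) * (((N / t : ℕ) : ℝ) * ((N / t : ℕ) : ℝ))) ≤
          (t : ℝ) * (((N : ℝ) / t) * ((N : ℝ) / t)) := by gcongr
      _ = (N : ℝ) ^ 2 * ((t : ℝ)⁻¹) := by field_simp
  refine (Finset.sum_le_sum h2).trans ?_
  rw [← Finset.mul_sum]
  apply mul_le_mul_of_nonneg_left _ (by positivity)
  have h5 := harmonic_le_one_add_log N
  have h6 : ((harmonic N : ℚ) : ℝ) = ∑ t ∈ Icc 1 N, ((t : ℝ)⁻¹) := by
    rw [harmonic_eq_sum_Icc]
    push_cast
    rfl
  rw [h6] at h5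
  exact h5

theorem pf_ME : T_ME := by
  classical
  intro N hN
  set E := ((Icc 1 N ×ˢ Icc 1 N ×ˢ Icc 1 N ×ˢ Icc 1 N).filter
    fun a : ℕ × ℕ × ℕ × ℕ => a.1 * a.2.1 = a.2.2.1 * a.2.2.2) with hE
  have hsub : E ⊆ ((Sg N).image fun x => (x.2.1 * x.2.2.1, x.2.2.2 * x.1, x.2.1 * x.2.2.2,
      x.2.2.1 * x.1)) ∪ ((Sg N).image fun x => (x.1 * x.2.2.1, x.2.2.2 * x.2.1, x.1 * x.2.2.2,
      x.2.2.1 * x.2.1)) := by
    rintro ⟨a, b, c, d⟩ hx
    simp only [hE, mem_filter, mem_product, mem_Icc] at hx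
    obtain ⟨⟨⟨ha1, ha2⟩, ⟨hb1, hb2⟩, ⟨hc1, hc2⟩, ⟨hd1, hd2⟩⟩, habcd⟩ := hx
    obtain ⟨u, v, huv, hu, hv⟩ := Nat.exists_coprime a c
    set g := Nat.gcd a c with hg
    have hg0 : 0 < g := Nat.gcd_pos_of_pos_left _ ha1
    have hu0 : 0 < u := Nat.pos_of_ne_zero (fun h => by rw [h] at hu; simp at hu; omega)
    have hv0 : 0 < v := Nat.pos_of_ne_zero (fun h => by rw [h] at hv; simp at hv; omega)
    have h1 : u * b = v * d := by
      have : g * (u * b) = g * (v * d) := by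
        calc g * (u * b) = (u * g) * b := by ring
          _ = a * b := by rw [← hu]
          _ = c * d := habcd
          _ = (v * g) * d := by rw [← hv]
          _ = g * (v * d) := by ring
      exact Nat.eq_of_mul_eq_mul_left hg0 this
    have h2 : v ∣ b := by
      have : v ∣ u * b := ⟨d, h1⟩
      exact (Nat.Coprime.dvd_of_dvd_mul_left huv.symm this)
    obtain ⟨t, ht⟩ := h2
    have h3 : d = u * t := by
      have : v * d = v * (u * t) := by rw [← h1, ht]; ring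
      exact Nat.eq_of_mul_eq_mul_left hv0 this
    have ht0 : 0 < t := Nat.pos_of_ne_zero (fun h => by rw [h] at ht; simp at ht; omega)
    rw [mem_union, mem_image, mem_image]
    have e1 : t ≤ N := le_trans (Nat.le_mul_of_pos_left t hv0) (by rw [← ht]; exact hb2)
    have e2 : g ≤ N := le_trans (Nat.le_mul_of_pos_left g hu0) (by rw [← hu]; exact ha2)
    rcases le_total g t with hgt | hgt
    · left
      refine ⟨⟨t, g, u, v⟩, ?_, ?_⟩
      · simp only [Sg, mem_sigma, mem_product, mem_Icc]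
        refine ⟨⟨ht0, e1⟩, ⟨hg0, hgt⟩, ⟨hu0, ?_⟩, ⟨hv0, ?_⟩⟩
        · rw [Nat.le_div_iff_mul_le ht0, ← h3]
          exact hd2
        · rw [Nat.le_div_iff_mul_le ht0, ← ht]
          exact hb2
      · simp only
        rw [mul_comm g u, mul_comm g v, ← hu, ← hv, ← ht, ← h3]
    · right
      refine ⟨⟨g, t, u, v⟩, ?_, ?_⟩
      · simp only [Sg, mem_sigma, mem_product, mem_Icc]
        refine ⟨⟨hg0, e2⟩, ⟨ht0, hgt⟩, ⟨hu0, ?_⟩, ⟨hv0, ?_⟩⟩
        · rw [Nat.le_div_iff_mul_le hg0, ← hu]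
          exact ha2
        · rw [Nat.le_div_iff_mul_le hg0, ← hv]
          exact hc2
      · simp only
        rw [mul_comm g u, mul_comm g v, ← hu, ← hv, ← ht, ← h3]
  have hc : E.card ≤ (Sg N).card + (Sg N).card :=
    (Finset.card_le_card hsub).trans ((Finset.card_union_le _ _).trans
      (add_le_add Finset.card_image_le Finset.card_image_le))
  have hc' : (E.card : ℝ) ≤ (Sg N).card + (Sg N).card := by exact_mod_cast hc
  have := card_Sg N hN
  linarith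

end Pool.Agent.H5.PSQ
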